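import Pool.Agent.VTP.StmtsW

/-!
# Squad VTP, row CAN: the third move in canonical form
-/

set_option autoImplicit false

namespace Pool.Agent.VTP.H59

open Finset Pool.Agent.ZOL Pool.Agent.VTP

theorem perm3 {X : Type} (s₁ s₂ s₃ A B C : X) (h : [s₁, s₂, s₃].Perm [A, B, C]) :
    (s₁ = A ∧ s₂ = B ∧ s₃ = C) ∨ (s₁ = A ∧ s₂ = C ∧ s₃ = B) ∨
    (s₁ = B ∧ s₂ = A ∧ s₃ = C) ∨ (s₁ = B ∧ s₂ = C ∧ s₃ = A) ∨
    (s₁ = C ∧ s₂ = A ∧ s₃ = B) ∨ (s₁ = C ∧ s₂ = B ∧ s₃ = A) := by
  classical
  have h2 : ∀ (x y P Q : X), [x, y].Perm [P, Q] → (x = P ∧ y = Q) ∨ (x = Q ∧ y = P) := by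
    intro x y P Q hp
    have hx : x ∈ [P, Q] := hp.subset (by simp)
    simp only [List.mem_cons, List.not_mem_nil, or_false] at hx
    rcases hx with rfl | rfl
    · left
      have := (List.perm_cons x).1 hp
      rw [List.perm_singleton] at this
      simpa using this
    · right
      have h1 : [x, y].Perm [x, P] := hp.trans (List.Perm.swap x P [])
      have := (List.perm_cons x).1 h1
      rw [List.perm_singleton] at this
      simpa using this
  have hx : s₁ ∈ [A, B, C] := h.subset (by simp)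
  simp only [List.mem_cons, List.not_mem_nil, or_false] at hx
  rcases hx with rfl | rfl | rfl
  · rcases h2 _ _ _ _ ((List.perm_cons s₁).1 h) with h' | h'
    · exact Or.inl ⟨rfl, h'⟩
    · exact Or.inr (Or.inl ⟨rfl, h'⟩)
  · have h1 : [s₁, s₂, s₃].Perm [s₁, A, C] := h.trans (List.Perm.swap s₁ A [C])
    rcases h2 _ _ _ _ ((List.perm_cons s₁).1 h1) with h' | h'
    · exact Or.inr (Or.inr (Or.inl ⟨rfl, h'⟩))
    · exact Or.inr (Or.inr (Or.inr (Or.inl ⟨rfl, h'⟩)))
  · have h0 : [A, B, s₁].Perm [A, s₁, B] := (List.perm_cons A).2 (List.Perm.swap s₁ B [])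
    have h1 : [s₁, s₂, s₃].Perm [s₁, A, B] := (h.trans h0).trans (List.Perm.swap s₁ A [B])
    rcases h2 _ _ _ _ ((List.perm_cons s₁).1 h1) with h' | h'
    · exact Or.inr (Or.inr (Or.inr (Or.inr (Or.inl ⟨rfl, h'⟩))))
    · exact Or.inr (Or.inr (Or.inr (Or.inr (Or.inr ⟨rfl, h'⟩))))

theorem can : CanStmt := by
  intro s₁ s₂ s₃ a b c t m d e hab hac hbc hp
  have hba := hab.symm
  have hca := hac.symm
  have hcb := hbc.symm
  rcases perm3 _ _ _ _ _ _ hp with ⟨rfl, rfl, rfl⟩ | ⟨rfl, rfl, rfl⟩ | ⟨rfl, rfl, rfl⟩ |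
    ⟨rfl, rfl, rfl⟩ | ⟨rfl, rfl, rfl⟩ | ⟨rfl, rfl, rfl⟩
  · refine ⟨(a, (t == m) == e, true), (b, (t == d) == e, true), (c, (m == d) == e, true),
      t, m, d, ?_⟩
    cases t <;> cases m <;> cases d <;> cases e <;>
      simp [Can, topPair, midPair, botPair, pr, bar, eps, bs, *]
  · refine ⟨(b, (t == d) == e, true), (a, (t == m) == e, true), (c, !((m == d) == e), false),
      !t, d, m, ?_⟩
    cases t <;> cases m <;> cases d <;> cases e <;>
      simp [Can, topPair, midPair, botPair, pr, bar, eps, bs, *]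
  · refine ⟨(a, !((t == m) == e), false), (c, (m == d) == e, true), (b, (t == d) == e, true),
      m, t, !d, ?_⟩
    cases t <;> cases m <;> cases d <;> cases e <;>
      simp [Can, topPair, midPair, botPair, pr, bar, eps, bs, *]
  · refine ⟨(c, (m == d) == e, true), (a, !((t == m) == e), false), (b, !((t == d) == e), false),
      !m, !d, t, ?_⟩
    cases t <;> cases m <;> cases d <;> cases e <;>
      simp [Can, topPair, midPair, botPair, pr, bar, eps, bs, *]
  · refine ⟨(b, !((t == d) == e), false), (c, !((m == d) == e), false), (a, (t == m) == e, true),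
      d, !t, !m, ?_⟩
    cases t <;> cases m <;> cases d <;> cases e <;>
      simp [Can, topPair, midPair, botPair, pr, bar, eps, bs, *]
  · refine ⟨(c, !((m == d) == e), false), (b, !((t == d) == e), false),
      (a, !((t == m) == e), false), !d, !m, !t, ?_⟩
    cases t <;> cases m <;> cases d <;> cases e <;>
      simp [Can, topPair, midPair, botPair, pr, bar, eps, bs, *]

end Pool.Agent.VTP.H59
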